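import Mathlib
import Pool.Agent.H932R3.Nagata

set_option autoImplicit false

/-!
# Project PACK: statements

Nef classes with small weights on very general blow-ups of the plane.
-/

namespace Pool.Agent.H713R3.PK

open Polynomial Pool.Agent.H932R2 Pool.Agent.H932R3

variable (K : Type) [Field K]

/-- No nonzero polynomial of degree at most `d` has multiplicity at least `w i` at `P i` for all
`i ∈ T`. -/
def NP {n : ℕ} (T : Finset (Fin n)) (P : Fin n → Fin 2 → K) (w : Fin n → ℕ) (d : ℕ) : Prop :=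
  ∀ f ∈ mspan K (Tset d),
    (∀ i ∈ T, f ∈ cIdeal (fun _ : Fin 1 => P i 0) (C (P i 1)) (w i)) → f = 0

/-- The class `H - ∑ i ∈ T, a i E i` is nonnegative on effective classes, for general points. -/
def GoodOn {n : ℕ} (T : Finset (Fin n)) (a : Fin n → ℝ) : Prop :=
  ∀ (w : Fin n → ℕ) (d : ℕ), (d : ℝ) < ∑ i ∈ T, a i * w i → ∃ P : Fin n → Fin 2 → K, NP K T P w d

/-- A partition of `T` into `V` cells, each of which is good for the weights `a`. -/
def Part {n : ℕ} (T : Finset (Fin n)) (a : Fin n → ℝ) (V : ℕ) : Prop :=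
  ∃ f : Fin n → ℕ, (∀ i ∈ T, f i < V) ∧ ∀ v < V, GoodOn K (T.filter fun i => f i = v) a

/-- TASK COMP: the composition lemma. -/
def TaskComp : Prop :=
  ∀ (K : Type) [Field K] [Infinite K] (n c : ℕ) (T : Finset (Fin n)) (π : Fin n → Fin c)
    (w : Fin n → ℕ) (M : Fin c → ℕ) (d : ℕ) (Q : Fin c → Fin 2 → K),
    NP K Finset.univ Q M d →
    ∀ R : Fin n → Fin 2 → K,
      (∀ j, 0 < M j → NP K (T.filter fun i => π i = j) R w (M j - 1)) →
      ∃ P : Fin n → Fin 2 → K, NP K T P w d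

/-- TASK CELLS: `c ^ 2` cells of size `1 / c`. -/
def TaskCells : Prop :=
  ∀ (K : Type) [Field K] [CharZero K] (n c : ℕ), 4 ≤ c → ∀ (T : Finset (Fin n)) (f : Fin n → ℕ)
    (b : Fin n → ℝ), (∀ i ∈ T, 0 ≤ b i) → (∀ i ∈ T, f i < c * c) →
    (∀ v < c * c, GoodOn K (T.filter fun i => f i = v) b) →
    GoodOn K T fun i => b i / c

/-- TASK SINGLE: one point, and degree zero. -/
def TaskSingle : Prop :=
  ∀ (K : Type) [Field K] (n : ℕ) (T : Finset (Fin n)) (i : Fin n), i ∈ T →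
    ∀ (P : Fin n → Fin 2 → K) (w : Fin n → ℕ) (d : ℕ), d < w i → NP K T P w d

/-- Union of two families of cells. -/
def PartUnion : Prop :=
  ∀ (n : ℕ) (T1 T2 : Finset (Fin n)) (a : Fin n → ℝ) (V1 V2 : ℕ), Disjoint T1 T2 →
    Part K T1 a V1 → Part K T2 a V2 → Part K (T1 ∪ T2) a (V1 + V2)

/-- Sixteen cells are put into one cell four times as large. -/
def PartMerge : Prop :=
  ∀ (n : ℕ) (T : Finset (Fin n)) (a : Fin n → ℝ) (V : ℕ), (∀ i ∈ T, 0 ≤ a i) → Part K T a V →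
    Part K T (fun i => a i / 4) ((V + 15) / 16)

/-- Points of weight at most `1 / c`, at most `c ^ 2` in each cell. -/
def PartUniform : Prop :=
  ∀ (n c : ℕ), 4 ≤ c → ∀ (T : Finset (Fin n)) (a : Fin n → ℝ),
    (∀ i ∈ T, 0 ≤ a i ∧ a i ≤ 1 / (c : ℝ)) → Part K T a ((T.card + (c * c - 1)) / (c * c))

/-- Smaller weights are good. -/
def GoodMono : Prop :=
  ∀ (n : ℕ) (T : Finset (Fin n)) (a a' : Fin n → ℝ), (∀ i ∈ T, a i ≤ a' i) → GoodOn K T a' →
    GoodOn K T a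

/-- All cells in one cell. -/
def PartFinal : Prop :=
  ∀ (n : ℕ) (T : Finset (Fin n)) (a : Fin n → ℝ) (t V : ℕ), (∀ i ∈ T, 0 ≤ a i) → V ≤ 16 ^ t →
    Part K T a V → GoodOn K T fun i => a i / 4 ^ t

/-- TASK PART: the rules for cells. -/
def TaskPart : Prop :=
  TaskCells → TaskSingle → ∀ (K : Type) [Field K] [CharZero K],
    PartUnion K ∧ PartMerge K ∧ PartUniform K ∧ GoodMono K ∧ PartFinal K

/-- TASK PACK: the numerical packing theorem. -/
def TaskPack : Prop :=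
  ∀ (K : Type) [Field K] [CharZero K],
    (PartUnion K ∧ PartMerge K ∧ PartUniform K ∧ GoodMono K ∧ PartFinal K) → ∀ ε : ℝ, 0 < ε → ∃ δ : ℝ, 0 < δ ∧
    ∀ (n : ℕ) (a : Fin n → ℝ), (∀ i, 0 ≤ a i ∧ a i ≤ δ) → ∑ i, a i ^ 2 ≤ 1 - ε →
      GoodOn K Finset.univ a

/-- TASK GEN: passage to very general points. -/
def TaskGen : Prop :=
  ∀ (K : Type) [Field K] [CharZero K] (n : ℕ),
    ∃ f : ℕ → MvPolynomial (Fin n × Fin 2) K, (∀ j, f j ≠ 0) ∧ ∀ p : Fin n → Fin 2 → K,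
      (∀ j, MvPolynomial.eval (fun q : Fin n × Fin 2 => p q.1 q.2) (f j) ≠ 0) →
      ∀ a : Fin n → ℝ, GoodOn K Finset.univ a →
      ∀ (w : Fin n → ℕ) (d : ℕ), (d : ℝ) < ∑ i, a i * w i → NoForm (ptJ p w) d

end Pool.Agent.H713R3.PK
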