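import Mathlib
import Pool.Agent.H713R3.PK.Stmts

set_option autoImplicit false

/-!
# Project PACK: the composition lemma
-/

namespace Pool.Agent.H713R3.PK

open Polynomial Pool.Agent.H932R2 Pool.Agent.H932R3

variable {K : Type} [Field K]

/-- The coefficient of `x ^ p.1 y ^ p.2`. -/
noncomputable def coL (p : ℕ × ℕ) : K[X][X] →ₗ[K] K where
  toFun f := (f.coeff p.2).coeff p.1
  map_add' f g := by simp
  map_smul' a f := by simp

theorem coL_apply (p : ℕ × ℕ) (f : K[X][X]) : coL p f = (f.coeff p.2).coeff p.1 := rfl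

theorem ext_co {f g : K[X][X]} (h : ∀ p, coL p f = coL p g) : f = g := by
  ext l i
  exact h (i, l)

/-- The homogeneous part of degree `e`. -/
noncomputable def Eh (e : ℕ) : K[X][X] →ₗ[K] K[X][X] :=
  ∑ p ∈ Finset.HasAntidiagonal.antidiagonal e, (coL p).smulRight (mon K p)

theorem co_Eh (e : ℕ) (p : ℕ × ℕ) (f : K[X][X]) :
    coL p (Eh e f) = if p.1 + p.2 = e then coL p f else 0 := by
  classical
  have h1 : Eh e f = ∑ q ∈ Finset.HasAntidiagonal.antidiagonal e, coL q f • mon K q := by
    simp [Eh, LinearMap.sum_apply]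
  rw [h1, map_sum]
  have h2 : ∀ q ∈ Finset.HasAntidiagonal.antidiagonal e, coL p (coL q f • mon K q) =
      if q = p then coL p f else 0 := by
    intro q _
    rw [map_smul, coL_apply p (mon K q), coeff_mon, smul_eq_mul]
    by_cases h : q = p
    · rw [if_pos h, if_pos h, h, mul_one]
    · rw [if_neg h, if_neg h, mul_zero]
  rw [Finset.sum_congr rfl h2, Finset.sum_ite_eq']
  simp only [Finset.HasAntidiagonal.mem_antidiagonal]

theorem Eh_mem {e d : ℕ} (h : e ≤ d) (f : K[X][X]) : Eh e f ∈ mspan K (Tset d) := by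
  have h1 : Eh e f = ∑ q ∈ Finset.HasAntidiagonal.antidiagonal e, coL q f • mon K q := by
    simp [Eh, LinearMap.sum_apply]
  rw [h1]
  refine Submodule.sum_mem _ fun q hq => Submodule.smul_mem _ _ (Submodule.subset_span ⟨q, ?_, rfl⟩)
  rw [Finset.HasAntidiagonal.mem_antidiagonal] at hq
  show q.1 + q.2 ≤ d
  omega

theorem co_mspan {d : ℕ} {f : K[X][X]} (hf : f ∈ mspan K (Tset d)) {p : ℕ × ℕ}
    (hp : d < p.1 + p.2) : coL p f = 0 := by
  refine Submodule.span_induction ?_ ?_ ?_ ?_ hf
  · rintro _ ⟨q, hq, rfl⟩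
    rw [coL_apply, coeff_mon, if_neg]
    rintro rfl
    have hq : p.1 + p.2 ≤ d := hq
    omega
  · rw [map_zero]
  · intro a b _ _ ha hb
    rw [map_add, ha, hb, add_zero]
  · intro c a _ ha
    rw [map_smul, ha, smul_zero]

/-- The translation as a linear map. -/
noncomputable def shL (c : K) (γ : K[X]) : K[X][X] →ₗ[K] K[X][X] where
  toFun f := sh c γ f
  map_add' f g := by simp
  map_smul' a f := by
    have h1 : a • f = C (C a) * f := by
      rw [Algebra.smul_def]
      rfl
    have h2 : a • sh c γ f = C (C a) * sh c γ f := by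
      rw [Algebra.smul_def]
      rfl
    rw [RingHom.id_apply, h1, h2, map_mul, sh_C, C_comp]

theorem shL_apply (c : K) (γ : K[X]) (f : K[X][X]) : shL c γ f = sh c γ f := rfl

theorem shL_mem {d : ℕ} {f : K[X][X]} (hf : f ∈ mspan K (Tset d)) (a b : K) :
    shL a (C b) f ∈ mspan K (Tset d) := by
  obtain ⟨F, hF, rfl⟩ := exists_form hf
  rw [shL_apply, ← deh_tr]
  exact deh_mem_mspan (tr_homog ((MvPolynomial.mem_homogeneousSubmodule _ _).1 hF))

theorem mem_c_iff {m : ℕ} {a b : K} {f : K[X][X]} :
    f ∈ cIdeal (fun _ : Fin 1 => a) (C b) m ↔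
      ∀ p : ℕ × ℕ, p.1 + p.2 < m → coL p (shL a (C b) f) = 0 := by
  rw [mem_cIdeal_iff]
  constructor
  · rintro h ⟨i, l⟩ hp
    simp only at hp
    exact h l (by omega) i (by omega)
  · intro h l hl i hi
    exact h (i, l) (by simp only; omega)

/-- The scaling `x ↦ s x`, `y ↦ s y`. -/
noncomputable def scal (s : K) : K[X][X] →+* K[X][X] :=
  (compRingHom (C (C s) * X)).comp (mapRingHom (compRingHom (C s * X)))

theorem scal_X (s : K) : scal s X = C (C s) * X := by
  simp [scal]

theorem scal_C (s : K) (a : K[X]) : scal s (C a) = C (a.comp (C s * X)) := by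
  simp [scal]

theorem co_scal (s : K) (f : K[X][X]) (p : ℕ × ℕ) :
    coL p (scal s f) = s ^ (p.1 + p.2) * coL p f := by
  rw [coL_apply, coL_apply]
  have h1 : scal s f = (f.map (compRingHom (C s * X))).comp (C (C s) * X) := rfl
  rw [h1, comp_C_mul_X_coeff, coeff_map]
  have h2 : (compRingHom (C s * X)) (f.coeff p.2) = (f.coeff p.2).comp (C s * X) := rfl
  rw [h2, ← C_pow, mul_comm, coeff_C_mul, comp_C_mul_X_coeff, pow_add]
  ring

theorem sh_scal (s r ρ : K) (f : K[X][X]) :
    sh r (C ρ) (scal s f) = scal s (sh (s * r) (C (s * ρ)) f) := by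
  have h : (sh r (C ρ)).comp (scal s) = (scal s).comp (sh (s * r) (C (s * ρ))) := by
    refine ringHom_ext' (ringHom_ext' ?_ ?_) ?_
    · ext a
      simp [sh_C, scal_C]
    · simp [sh_C, scal_C, mul_add]
    · simp [sh_X, scal_X, sh_C, scal_C, mul_add]
  exact congrArg (fun φ : K[X][X] →+* K[X][X] => φ f) h

theorem sh_comp (a b a' b' : K) (f : K[X][X]) :
    sh a' (C b') (sh a (C b) f) = sh (a + a') (C (b + b')) f := by
  have h : (sh a' (C b')).comp (sh a (C b)) = sh (a + a') (C (b + b')) := by
    refine ringHom_ext' (ringHom_ext' ?_ ?_) ?_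
    · ext c
      simp [sh_C]
    · show sh a' (C b') (sh a (C b) (C X)) = sh (a + a') (C (b + b')) (C X)
      rw [sh_C, sh_C, sh_C, X_comp, X_comp, add_comp, X_comp, C_comp]
      simp only [C_add]
      ring
    · show sh a' (C b') (sh a (C b) X) = sh (a + a') (C (b + b')) X
      rw [sh_X, C_comp, map_add, sh_X, C_comp, sh_C, C_comp, sh_X, C_comp]
      simp only [C_add]
      ring
  exact congrArg (fun φ : K[X][X] →+* K[X][X] => φ f) h

/-- The scaled translate has the same multiplicities. -/
theorem scaled_mem {a b s r ρ : K} {m : ℕ} {f : K[X][X]}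
    (h : f ∈ cIdeal (fun _ : Fin 1 => a + s * r) (C (b + s * ρ)) m) :
    scal s (shL a (C b) f) ∈ cIdeal (fun _ : Fin 1 => r) (C ρ) m := by
  rw [mem_c_iff] at h ⊢
  intro p hp
  rw [shL_apply, shL_apply, sh_scal, sh_comp, co_scal, ← shL_apply, h p hp, mul_zero]

/-- The scaled polynomial in terms of its homogeneous parts. -/
theorem scal_eq_sum {d : ℕ} {h : K[X][X]} (hh : h ∈ mspan K (Tset d)) (s : K) :
    scal s h = ∑ e ∈ Finset.range (d + 1), s ^ e • Eh e h := by
  refine ext_co fun p => ?_
  rw [co_scal, map_sum]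
  have h1 : ∀ e ∈ Finset.range (d + 1), coL p (s ^ e • Eh e h) =
      if p.1 + p.2 = e then s ^ (p.1 + p.2) * coL p h else 0 := by
    intro e _
    rw [map_smul, co_Eh, smul_eq_mul]
    by_cases he : p.1 + p.2 = e
    · rw [if_pos he, if_pos he, he]
    · rw [if_neg he, if_neg he, mul_zero]
  rw [Finset.sum_congr rfl h1, Finset.sum_ite_eq]
  by_cases hp : p.1 + p.2 ∈ Finset.range (d + 1)
  · rw [if_pos hp]
  · rw [if_neg hp]
    rw [Finset.mem_range, not_lt] at hp
    rw [co_mspan hh (by omega), mul_zero]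

/-- A projection onto the polynomials of degree less than `M` which kills the polynomials with the
given multiplicities. -/
theorem exists_theta {n : ℕ} {T : Finset (Fin n)} {R : Fin n → Fin 2 → K} {w : Fin n → ℕ} {M : ℕ}
    (h : NP K T R w (M - 1)) : ∃ θ : K[X][X] →ₗ[K] K[X][X],
      (∀ g ∈ mspan K (Tset (M - 1)), θ g = g) ∧
      ∀ g : K[X][X], (∀ i ∈ T, g ∈ cIdeal (fun _ : Fin 1 => R i 0) (C (R i 1)) (w i)) → θ g = 0 := by
  obtain ⟨N, hN⟩ : ∃ N : Submodule K K[X][X], N = ⨅ i ∈ T,
      Submodule.restrictScalars K (cIdeal (fun _ : Fin 1 => R i 0) (C (R i 1)) (w i)) := ⟨_, rfl⟩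
  have hmem : ∀ g, g ∈ N ↔ ∀ i ∈ T, g ∈ cIdeal (fun _ : Fin 1 => R i 0) (C (R i 1)) (w i) := by
    intro g
    rw [hN]
    simp only [Submodule.mem_iInf, Submodule.restrictScalars_mem]
  have hdis : Disjoint N (mspan K (Tset (M - 1))) := by
    rw [Submodule.disjoint_def]
    intro g hg hg'
    exact h g hg' ((hmem g).1 hg)
  obtain ⟨N', hNN', hc⟩ := hdis.exists_isCompl
  refine ⟨Submodule.projection _ _ hc.symm, fun g hg => ?_, fun g hg => ?_⟩
  · exact Submodule.projection_apply_of_mem_left _ hg
  · exact (Submodule.projection_apply_eq_zero_iff _).2 (hNN' ((hmem g).2 hg))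

/-- **Task COMP.** -/
theorem taskComp : TaskComp := by
  intro K _ _ n c T π w M d Q hQ R hR
  classical
  have hθ : ∀ j : Fin c, ∃ θ : K[X][X] →ₗ[K] K[X][X], 0 < M j →
      (∀ g ∈ mspan K (Tset (M j - 1)), θ g = g) ∧
      ∀ g : K[X][X], (∀ i ∈ T.filter fun i => π i = j,
        g ∈ cIdeal (fun _ : Fin 1 => R i 0) (C (R i 1)) (w i)) → θ g = 0 := by
    intro j
    by_cases h : 0 < M j
    · obtain ⟨θ, h1, h2⟩ := exists_theta (hR j h)
      exact ⟨θ, fun _ => ⟨h1, h2⟩⟩
    · exact ⟨0, fun h' => absurd h' h⟩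
  choose θ hθ using hθ
  let Φ : ℕ → K[X][X] →ₗ[K] (Fin c → ℕ → K[X][X]) := fun k =>
    LinearMap.pi fun j => LinearMap.pi fun a =>
      if a < M j then
        (if k = 0 then (Eh a).comp (shL (Q j 0) (C (Q j 1)))
        else if M j ≤ a + k then
          ((Eh a).comp (θ j)).comp ((Eh (a + k)).comp (shL (Q j 0) (C (Q j 1)))) else 0)
      else 0
  have hΦ : ∀ k f j a, Φ k f j a = if a < M j then
        (if k = 0 then Eh a (shL (Q j 0) (C (Q j 1)) f)
        else if M j ≤ a + k then
          Eh a (θ j (Eh (a + k) (shL (Q j 0) (C (Q j 1)) f))) else 0)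
      else 0 := by
    intro k f j a
    show (if a < M j then
        (if k = 0 then (Eh a).comp (shL (Q j 0) (C (Q j 1)))
        else if M j ≤ a + k then
          ((Eh a).comp (θ j)).comp ((Eh (a + k)).comp (shL (Q j 0) (C (Q j 1)))) else 0)
      else (0 : K[X][X] →ₗ[K] K[X][X])) f = _
    split_ifs <;> rfl
  let mo : Fin (Tfin d).card → K[X][X] := fun i => mon K (enumM (Tfin d) i)
  have hmo : ∀ g : Fin (Tfin d).card → K, ∑ i, g i • mo i ∈ mspan K (Tset d) := by
    intro g
    rw [← coe_Tfin]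
    exact Submodule.sum_mem _ fun i _ => Submodule.smul_mem _ _
      (Submodule.subset_span ⟨_, enumM_mem (Tfin d) i, rfl⟩)
  have h0 : LinearIndependent K (fun i => Φ 0 (mo i)) := by
    rw [Fintype.linearIndependent_iff]
    intro g hg
    have h1 : Φ 0 (∑ i, g i • mo i) = 0 := by
      rw [map_sum, ← hg]
      exact Finset.sum_congr rfl fun i _ => map_smul _ _ _
    have h2 : ∑ i, g i • mo i = 0 := by
      refine hQ _ (hmo g) fun j _ => ?_
      rw [mem_c_iff]
      intro p hp
      have h3 := congrFun (congrFun h1 j) (p.1 + p.2)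
      rw [hΦ, if_pos hp, if_pos rfl] at h3
      have h4 := congrArg (coL p) h3
      rw [co_Eh, if_pos rfl] at h4
      rw [h4]
      exact map_zero _
    exact mspan_eq_zero g h2
  obtain ⟨t, ht0, ht⟩ := exists_ne_zero_li d (fun i k => Φ k (mo i)) h0
  refine ⟨fun i b => Q (π i) b + t * R i b, fun f hf hfm => ?_⟩
  -- the family at `t` kills `f`
  have key : ∑ k ∈ Finset.range (d + 1), t ^ k • Φ k f = 0 := by
    funext j
    funext a
    rw [Finset.sum_apply, Finset.sum_apply]
    show ∑ k ∈ Finset.range (d + 1), t ^ k • Φ k f j a = 0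
    by_cases ha : a < M j
    swap
    · refine Finset.sum_eq_zero fun k _ => ?_
      rw [hΦ, if_neg ha, smul_zero]
    obtain ⟨h1, h2⟩ := hθ j (by omega)
    obtain ⟨h, hh⟩ : ∃ h, h = shL (Q j 0) (C (Q j 1)) f := ⟨_, rfl⟩
    have hhm : h ∈ mspan K (Tset d) := by
      rw [hh]
      exact shL_mem hf _ _
    have h3 : θ j (scal t h) = 0 := by
      refine h2 _ fun i hi => ?_
      rw [Finset.mem_filter] at hi
      obtain ⟨hiT, hij⟩ := hi
      have h4 : f ∈ cIdeal (fun _ : Fin 1 => Q (π i) 0 + t * R i 0)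
          (C (Q (π i) 1 + t * R i 1)) (w i) := hfm i hiT
      rw [hij] at h4
      rw [hh]
      exact scaled_mem h4
    rw [scal_eq_sum hhm, map_sum] at h3
    obtain ⟨g, hg⟩ : ∃ g : ℕ → K[X][X], ∀ e, g e =
        if M j ≤ e then t ^ e • Eh a (θ j (Eh e h)) else 0 := ⟨_, fun _ => rfl⟩
    have h4 := congrArg (Eh a) h3
    rw [map_sum, map_zero] at h4
    have h5 : ∀ e ∈ Finset.range (d + 1), Eh a (θ j (t ^ e • Eh e h)) =
        (if e = a then t ^ a • Eh a h else 0) + g e := by
      intro e _
      rw [map_smul, map_smul, hg]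
      by_cases he : M j ≤ e
      · rw [if_pos he, if_neg (by omega), zero_add]
      · rw [if_neg he, add_zero, h1 _ (Eh_mem (by omega) h)]
        by_cases hea : e = a
        · rw [if_pos hea, hea]
          congr 1
          refine ext_co fun p => ?_
          rw [co_Eh, co_Eh]
          split_ifs <;> rfl
        · rw [if_neg hea]
          have h6 : Eh a (Eh e h) = 0 := by
            refine ext_co fun p => ?_
            rw [co_Eh, co_Eh, map_zero]
            split_ifs with h7 h8
            · omega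
            · rfl
            · rfl
          rw [h6, smul_zero]
    rw [Finset.sum_congr rfl h5, Finset.sum_add_distrib, Finset.sum_ite_eq'] at h4
    have hgd : ∀ e, d < e → g e = 0 := by
      intro e he
      rw [hg]
      have h6 : Eh e h = 0 := by
        refine ext_co fun p => ?_
        rw [co_Eh, map_zero]
        split_ifs with h7
        · exact co_mspan hhm (by omega)
        · rfl
      rw [h6, map_zero, map_zero, smul_zero, ite_self]
    have had : (if a ∈ Finset.range (d + 1) then t ^ a • Eh a h else 0) = t ^ a • Eh a h := by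
      by_cases h6 : a ∈ Finset.range (d + 1)
      · rw [if_pos h6]
      · rw [if_neg h6]
        rw [Finset.mem_range, not_lt] at h6
        have h7 : Eh a h = 0 := by
          refine ext_co fun p => ?_
          rw [co_Eh, map_zero]
          split_ifs with h7
          · exact co_mspan hhm (by omega)
          · rfl
        rw [h7, smul_zero]
    rw [had] at h4
    -- the sum in question, multiplied by `t ^ a`
    have h6 : t ^ a • ∑ k ∈ Finset.range (d + 1), t ^ k • Φ k f j a =
        t ^ a • Eh a h + ∑ k ∈ Finset.range (d + 1), g (a + k) := by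
      rw [Finset.smul_sum, Finset.sum_range_succ', Finset.sum_range_succ' (fun k => g (a + k))]
      have h7 : g (a + 0) = 0 := by
        rw [hg, if_neg (by omega)]
      rw [h7, add_zero, add_comm (t ^ a • Eh a h)]
      congr 1
      · refine Finset.sum_congr rfl fun k _ => ?_
        rw [hΦ, if_pos ha, if_neg (by omega), hg, ← hh]
        by_cases hk : M j ≤ a + (k + 1)
        · rw [if_pos hk, if_pos hk, smul_smul, ← pow_add]
        · rw [if_neg hk, if_neg hk, smul_zero, smul_zero]
      · rw [hΦ, if_pos ha, if_pos rfl, pow_zero, one_smul, ← hh]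
    have h8 : ∑ k ∈ Finset.range (d + 1), g (a + k) = ∑ e ∈ Finset.range (d + 1), g e := by
      have h9 : ∑ e ∈ Finset.range (a + (d + 1)), g e = ∑ e ∈ Finset.range (d + 1), g e := by
        symm
        refine Finset.sum_subset (Finset.range_subset_range.2 (by omega)) fun e _ he => ?_
        rw [Finset.mem_range, not_lt] at he
        exact hgd e (by omega)
      rw [← h9]
      have h12 := Finset.sum_range_add g a (d + 1)
      have h10 : ∑ e ∈ Finset.range a, g e = 0 := by
        refine Finset.sum_eq_zero fun e he => ?_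
        rw [Finset.mem_range] at he
        rw [hg, if_neg (by omega)]
      rw [h12, h10, zero_add]
    rw [h8, h4] at h6
    have h11 : t ^ a ≠ 0 := pow_ne_zero _ ht0
    exact (smul_eq_zero.1 h6).resolve_left h11
  -- conclusion
  rw [← coe_Tfin, mem_mspan_iff] at hf
  obtain ⟨a, ha⟩ := hf
  rw [coordMap_apply] at ha
  rw [Fintype.linearIndependent_iff] at ht
  have h1 : ∀ i, a i = 0 := by
    refine ht a ?_
    rw [← key, ← ha]
    have h2 : ∀ i, a i • ∑ k ∈ Finset.range (d + 1), t ^ k • Φ k (mo i) =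
        ∑ k ∈ Finset.range (d + 1), t ^ k • Φ k (a i • mo i) := by
      intro i
      rw [Finset.smul_sum]
      refine Finset.sum_congr rfl fun k _ => ?_
      rw [map_smul, smul_comm]
    rw [Finset.sum_congr rfl fun i _ => h2 i, Finset.sum_comm]
    refine Finset.sum_congr rfl fun k _ => ?_
    rw [map_sum, Finset.smul_sum]
  rw [← ha]
  exact Finset.sum_eq_zero fun i _ => by rw [h1 i, zero_smul]

end Pool.Agent.H713R3.PK
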