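import Mathlib
import Pool.Agent.H713R3.PK.Stmts

set_option autoImplicit false

/-!
# Project PACK: `c ^ 2` cells of size `1 / c`
-/

namespace Pool.Agent.H713R3.PK

open Polynomial Pool.Agent.H932R2 Pool.Agent.H932R3

/-- `NP` only depends on the points of `T`. -/
theorem NP.congr_points {K : Type} [Field K] {n : ℕ} {T : Finset (Fin n)}
    {P P' : Fin n → Fin 2 → K} {w : Fin n → ℕ} {d : ℕ} (h : NP K T P w d)
    (hP : ∀ i ∈ T, P i = P' i) : NP K T P' w d := by
  intro f hf hf'
  refine h f hf fun i hi => ?_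
  rw [hP i hi]
  exact hf' i hi

/-- `NoForm` at the points gives `NP` on all of them. -/
theorem NP.of_noForm {K : Type} [Field K] {n : ℕ} {P : Fin n → Fin 2 → K} {w : Fin n → ℕ}
    {d : ℕ} (h : NoForm (ptJ P w) d) : NP K Finset.univ P w d := by
  intro f hf hf'
  obtain ⟨F, hF, rfl⟩ := exists_form hf
  have h1 : F = 0 := by
    refine h F hF ?_
    unfold ptJ vIdeal
    rw [Ideal.mem_iInf]
    intro i
    exact hf' i (Finset.mem_univ i)
  rw [h1, map_zero]

/-- Uniformly many points: a numerical condition for nonuniform multiplicities. -/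
theorem exists_NP_square {K : Type} [Field K] [CharZero K] {c : ℕ} (hc : 4 ≤ c)
    (M : Fin (c * c) → ℕ) {d : ℕ} (hd : 0 < d) (h : c * d ≤ ∑ v, M v) :
    ∃ Q : Fin (c * c) → Fin 2 → K, NP K Finset.univ Q M d := by
  have hinf : Infinite K := Infinite.of_injective (Nat.cast : ℕ → K) Nat.cast_injective
  have hcc : 0 < c * c := by positivity
  have : NeZero (c * c) := ⟨hcc.ne'⟩
  have hE : Empt (c * c) (∑ v, M v) (c * c * d) := by
    refine Empt.of_square hc ?_
    calc c * c * d = (c * d) * c := by ring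
      _ ≤ (∑ v, M v) * c := Nat.mul_le_mul_right c h
  obtain ⟨F0, hF0, hF0'⟩ := points_empty (K := K) (fun q hq _ => by exact_mod_cast hq.ne')
    (Nat.mul_pos hcc hd) hE
  obtain ⟨x, hx⟩ : ∃ x : Fin (c * c) × Fin 2 → K, MvPolynomial.eval x F0 ≠ 0 := by
    by_contra hcon
    push Not at hcon
    exact hF0 (MvPolynomial.funext fun x => by rw [hcon x, map_zero])
  obtain ⟨P0, hP0⟩ := NoForm.prod (hF0' (fun i j => x (i, j)) hx)
  exact ⟨P0, NP.of_noForm hP0⟩

theorem taskCells (h : TaskComp) (h1 : TaskSingle) : TaskCells := by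
  classical
  intro K _ _ n c hc T f b hb hf hgood w d hd
  have hinf : Infinite K := Infinite.of_injective (Nat.cast : ℕ → K) Nat.cast_injective
  have hcR : (0 : ℝ) < c := by
    have : 0 < c := by omega
    exact_mod_cast this
  have hcc : 0 < c * c := by positivity
  -- the sums over the cells
  set S : Fin (c * c) → ℝ := fun v => ∑ i ∈ T.filter (fun i => f i = (v : ℕ)), b i * w i with hS
  have hS0 : ∀ v, 0 ≤ S v := fun v => Finset.sum_nonneg fun i hi =>
    mul_nonneg (hb i (Finset.mem_filter.1 hi).1) (Nat.cast_nonneg _)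
  set M : Fin (c * c) → ℕ := fun v => ⌈S v⌉₊ with hM
  have hSM : ∀ v, S v ≤ M v := fun v => Nat.le_ceil _
  have hSsum : ∑ v, S v = ∑ i ∈ T, b i * w i := by
    have h2 : ∑ i ∈ T, b i * (w i : ℝ) =
        ∑ v ∈ Finset.range (c * c), ∑ i ∈ T.filter (fun i => f i = v), b i * w i := by
      refine (Finset.sum_fiberwise_of_maps_to (fun i hi => ?_) _).symm
      exact Finset.mem_range.2 (hf i hi)
    rw [h2, Finset.sum_range]
  have hsum : (c : ℝ) * d < ∑ v, (M v : ℝ) := by
    have h2 : ∑ i ∈ T, b i / (c : ℝ) * w i = (∑ i ∈ T, b i * w i) / c := by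
      rw [Finset.sum_div]
      exact Finset.sum_congr rfl fun i _ => by ring
    have h3 : (d : ℝ) < (∑ i ∈ T, b i * w i) / c := by
      rw [← h2]
      exact hd
    rw [lt_div_iff₀ hcR] at h3
    calc (c : ℝ) * d = d * c := by ring
      _ < ∑ i ∈ T, b i * w i := h3
      _ = ∑ v, S v := hSsum.symm
      _ ≤ ∑ v, (M v : ℝ) := Finset.sum_le_sum fun v _ => hSM v
  have hsumN : c * d < ∑ v, M v := by
    have h2 : ((c * d : ℕ) : ℝ) < ((∑ v, M v : ℕ) : ℝ) := by
      push_cast
      exact hsum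
    exact_mod_cast h2
  -- the big points
  obtain ⟨Q, hQ⟩ : ∃ Q : Fin (c * c) → Fin 2 → K, NP K Finset.univ Q M d := by
    rcases Nat.eq_zero_or_pos d with rfl | hd0
    · obtain ⟨v, hv⟩ : ∃ v, 0 < M v := by
        by_contra hcon
        push Not at hcon
        have h2 : ∑ v, M v = 0 := Finset.sum_eq_zero fun v _ => Nat.le_zero.1 (hcon v)
        omega
      exact ⟨fun _ _ => 0, h1 K (c * c) Finset.univ v (Finset.mem_univ v) _ M 0 hv⟩
    · exact exists_NP_square hc M hd0 hsumN.le
  -- the small points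
  have hR : ∀ v : Fin (c * c), ∃ R : Fin n → Fin 2 → K, 0 < M v →
      NP K (T.filter fun i => f i = (v : ℕ)) R w (M v - 1) := by
    intro v
    by_cases hv : 0 < M v
    · obtain ⟨R, hR⟩ := hgood v v.2 w (M v - 1) (by
        have h2 : (M v : ℝ) < S v + 1 := Nat.ceil_lt_add_one (hS0 v)
        have h3 : ((M v - 1 : ℕ) : ℝ) = (M v : ℝ) - 1 := by
          rw [Nat.cast_sub (by omega)]
          simp
        rw [h3]
        show (M v : ℝ) - 1 < S v
        linarith)
      exact ⟨R, fun _ => hR⟩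
    · exact ⟨fun _ _ => 0, fun h2 => absurd h2 hv⟩
  choose R hR using hR
  set π : Fin n → Fin (c * c) := fun i => if h2 : f i < c * c then ⟨f i, h2⟩ else ⟨0, hcc⟩ with hπ
  have hfilter : ∀ j : Fin (c * c), (T.filter fun i => π i = j) =
      T.filter fun i => f i = (j : ℕ) := by
    intro j
    refine Finset.filter_congr fun i hi => ?_
    rw [hπ]
    simp only [dif_pos (hf i hi)]
    rw [Fin.ext_iff]
  refine h K n (c * c) T π w M d Q hQ (fun i => R (π i) i) fun j hj => ?_
  rw [hfilter j]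
  refine (hR j hj).congr_points fun i hi => ?_
  have h2 : i ∈ T.filter fun i => π i = j := by
    rw [hfilter j]
    exact hi
  rw [(Finset.mem_filter.1 h2).2]

end Pool.Agent.H713R3.PK
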