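import Mathlib

set_option autoImplicit false

/-! Numerical part of the packing theorem (square packing), abstract form. -/

namespace Pool.Agent.H713R3.PK.Acc

open Finset

variable {n : ℕ} (Pt : Finset (Fin n) → (Fin n → ℝ) → ℕ → Prop)

theorem union_range
    (hU : ∀ (T1 T2 : Finset (Fin n)) (a : Fin n → ℝ) (V1 V2 : ℕ), Disjoint T1 T2 →
      Pt T1 a V1 → Pt T2 a V2 → Pt (T1 ∪ T2) a (V1 + V2))
    (hE : ∀ a, Pt ∅ a 0)
    (S : Finset (Fin n)) (g : Fin n → ℕ) (b : Fin n → ℝ) (V : ℕ → ℕ) (L : ℕ) (A : ℝ)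
    (hc : ∀ c, L ≤ c → Pt (S.filter fun i => g i = c) b (V c))
    (hV : ∀ c, L ≤ c → (V c : ℝ) ≤ A * ∑ i ∈ S.filter (fun i => g i = c), b i ^ 2 + 1) (m : ℕ) :
    ∃ W : ℕ, Pt (S.filter fun i => L ≤ g i ∧ g i < L + m) b W ∧
      (W : ℝ) ≤ A * ∑ i ∈ S.filter (fun i => L ≤ g i ∧ g i < L + m), b i ^ 2 + m := by
  induction m with
  | zero =>
    have h0 : (S.filter fun i => L ≤ g i ∧ g i < L + 0) = ∅ := by
      apply Finset.filter_false_of_mem; intro i _; omega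
    rw [h0]
    exact ⟨0, hE b, by simp⟩
  | succ m ih =>
    obtain ⟨W, hW1, hW2⟩ := ih
    have h1 : (S.filter fun i => L ≤ g i ∧ g i < L + (m + 1)) =
        (S.filter fun i => L ≤ g i ∧ g i < L + m) ∪ (S.filter fun i => g i = L + m) := by
      ext i
      simp only [Finset.mem_filter, Finset.mem_union]
      constructor
      · rintro ⟨h, h2, h3⟩
        by_cases h4 : g i = L + m
        · right; exact ⟨h, h4⟩
        · left; exact ⟨h, h2, by omega⟩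
      · rintro (⟨h, h2, h3⟩ | ⟨h, h2⟩)
        · exact ⟨h, h2, by omega⟩
        · exact ⟨h, by omega, by omega⟩
    have hd : Disjoint (S.filter fun i => L ≤ g i ∧ g i < L + m) (S.filter fun i => g i = L + m) := by
      rw [Finset.disjoint_left]
      intro i
      simp only [Finset.mem_filter]
      rintro ⟨_, _, h⟩ ⟨_, h'⟩
      omega
    refine ⟨W + V (L + m), ?_, ?_⟩
    · rw [h1]
      exact hU _ _ _ _ _ hd hW1 (hc _ (by omega))
    · rw [h1, Finset.sum_union hd, mul_add]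
      have := hV (L + m) (by omega)
      push_cast
      linarith

theorem cell_bound (L c : ℕ) (hL : 4 ≤ L) (hc : L ≤ c) (T : Finset (Fin n)) (b : Fin n → ℝ)
    (hb : ∀ i ∈ T, 0 < b i) (hT : ∀ i ∈ T, 1 < b i * ((c : ℝ) + 1)) :
    (((T.card + (c * c - 1)) / (c * c) : ℕ) : ℝ) ≤ (1 + 1 / (L : ℝ)) ^ 2 * ∑ i ∈ T, b i ^ 2 + 1 := by
  have hLr : (4 : ℝ) ≤ L := by exact_mod_cast hL
  have hcr : (L : ℝ) ≤ c := by exact_mod_cast hc
  have hc0 : (0 : ℝ) < c := by linarith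
  have hcc : (0 : ℝ) < (c : ℝ) * c := by positivity
  have h1 : (((T.card + (c * c - 1)) / (c * c) : ℕ) : ℝ) ≤
      ((T.card + (c * c - 1) : ℕ) : ℝ) / ((c * c : ℕ) : ℝ) := Nat.cast_div_le
  have h2 : ((T.card + (c * c - 1) : ℕ) : ℝ) ≤ (T.card : ℝ) + c * c := by
    have : T.card + (c * c - 1) ≤ T.card + c * c := by omega
    exact_mod_cast this
  have h3 : ((T.card + (c * c - 1) : ℕ) : ℝ) / ((c * c : ℕ) : ℝ) ≤ (T.card : ℝ) / (c * c) + 1 := by
    rw [Nat.cast_mul]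
    calc ((T.card + (c * c - 1) : ℕ) : ℝ) / ((c : ℝ) * c) ≤ ((T.card : ℝ) + c * c) / (c * c) := by
          gcongr
      _ = (T.card : ℝ) / (c * c) + 1 := by field_simp
  have h4 : ∀ i ∈ T, 1 / ((c : ℝ) * c) ≤ (1 + 1 / (L : ℝ)) ^ 2 * b i ^ 2 := by
    intro i hi
    have hbi := hb i hi
    have h5 : 1 / (c : ℝ) ≤ (1 + 1 / (L : ℝ)) * b i := by
      have h6 : 1 / (c : ℝ) ≤ 1 / (L : ℝ) := one_div_le_one_div_of_le (by linarith) hcr
      have h7 : 1 / (c : ℝ) ≤ (1 + 1 / (c : ℝ)) * b i := by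
        rw [div_le_iff₀ hc0]
        have h8 : (1 + 1 / (c : ℝ)) * b i * c = b i * (c + 1) := by field_simp
        rw [h8]; exact (hT i hi).le
      calc 1 / (c : ℝ) ≤ (1 + 1 / (c : ℝ)) * b i := h7
        _ ≤ (1 + 1 / (L : ℝ)) * b i := by gcongr
    have h9 : 1 / ((c : ℝ) * c) = (1 / (c : ℝ)) ^ 2 := by field_simp
    rw [h9, ← mul_pow]
    exact pow_le_pow_left₀ (by positivity) h5 2
  have h10 : (T.card : ℝ) / (c * c) ≤ (1 + 1 / (L : ℝ)) ^ 2 * ∑ i ∈ T, b i ^ 2 := by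
    rw [Finset.mul_sum]
    have h11 := Finset.sum_le_sum h4
    rw [Finset.sum_const, nsmul_eq_mul] at h11
    calc (T.card : ℝ) / (c * c) = (T.card : ℝ) * (1 / ((c : ℝ) * c)) := by ring
      _ ≤ _ := h11
  linarith

/-- the level invariant -/
def PP (L : ℕ) (b : Fin n → ℝ) (V : ℕ) : Prop :=
  Pt (univ.filter fun i => b i ≤ 1 / (L : ℝ)) b V ∧
    (V : ℝ) ≤ (1 + 1 / (L : ℝ)) ^ 2 * ∑ i ∈ univ.filter (fun i => b i ≤ 1 / (L : ℝ)), b i ^ 2 +
      (4 * L + 2)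

theorem step (L : ℕ) (hL : 4 ≤ L)
    (hU : ∀ (T1 T2 : Finset (Fin n)) (a : Fin n → ℝ) (V1 V2 : ℕ), Disjoint T1 T2 →
      Pt T1 a V1 → Pt T2 a V2 → Pt (T1 ∪ T2) a (V1 + V2))
    (hM : ∀ (T : Finset (Fin n)) (a : Fin n → ℝ) (V : ℕ), (∀ i ∈ T, 0 ≤ a i) → Pt T a V →
      Pt T (fun i => a i / 4) ((V + 15) / 16))
    (hN : ∀ c : ℕ, 4 ≤ c → ∀ (T : Finset (Fin n)) (a : Fin n → ℝ),
      (∀ i ∈ T, 0 ≤ a i ∧ a i ≤ 1 / (c : ℝ)) → Pt T a ((T.card + (c * c - 1)) / (c * c)))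
    (b : Fin n → ℝ) (hb : ∀ i, 0 < b i) (V : ℕ) (hV : PP Pt L (fun i => 4 * b i) V) :
    ∃ V', PP Pt L b V' := by
  have hE : ∀ a, Pt ∅ a 0 := by
    intro a
    have := hN 4 le_rfl ∅ a (by simp)
    simpa using this
  have hLr : (4 : ℝ) ≤ L := by exact_mod_cast hL
  have hL0 : (0 : ℝ) < L := by linarith
  obtain ⟨hV1, hV2⟩ := hV
  set S := univ.filter fun i => b i ≤ 1 / (L : ℝ) with hS
  set S' := univ.filter fun i => 4 * b i ≤ 1 / (L : ℝ) with hS'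
  set D := S.filter fun i => ¬ (4 * b i ≤ 1 / (L : ℝ)) with hD
  set g : Fin n → ℕ := fun i => ⌊1 / b i⌋₊ with hg
  have hSU : S = S' ∪ D := by
    ext i
    simp only [hS, hS', hD, Finset.mem_union, Finset.mem_filter, Finset.mem_univ, true_and]
    constructor
    · intro h
      by_cases h4 : 4 * b i ≤ 1 / (L : ℝ)
      · left; exact h4
      · right; exact ⟨h, h4⟩
    · rintro (h | h)
      · have := hb i; linarith
      · exact h.1
  have hdis : Disjoint S' D := by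
    rw [Finset.disjoint_left]
    intro i
    simp only [hS', hD, Finset.mem_filter, Finset.mem_univ, true_and]
    rintro h ⟨_, h'⟩
    exact h' h
  have hgD : (D.filter fun i => L ≤ g i ∧ g i < L + 3 * L) = D := by
    apply Finset.filter_true_of_mem
    intro i hi
    simp only [hD, hS, Finset.mem_filter, Finset.mem_univ, true_and, not_le] at hi
    obtain ⟨h1, h2⟩ := hi
    have hbi := hb i
    constructor
    · apply Nat.le_floor
      rw [le_div_iff₀ hbi]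
      rw [le_div_iff₀ hL0] at h1
      linarith
    · rw [hg]
      simp only
      rw [Nat.floor_lt (by positivity), div_lt_iff₀ hbi]
      rw [div_lt_iff₀ hL0] at h2
      push_cast
      linarith
  obtain ⟨W, hW1, hW2⟩ := union_range Pt hU hE D g b
    (fun c => ((D.filter fun i => g i = c).card + (c * c - 1)) / (c * c)) L ((1 + 1 / (L : ℝ)) ^ 2)
    (by
      intro c hc
      apply hN c (by omega)
      intro i hi
      rw [Finset.mem_filter] at hi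
      have hbi := hb i
      refine ⟨hbi.le, ?_⟩
      have hc0 : (0 : ℝ) < c := by
        have : 0 < c := by omega
        exact_mod_cast this
      rw [le_div_iff₀ hc0]
      have h1 : (c : ℝ) ≤ 1 / b i := by
        rw [← hi.2]
        exact Nat.floor_le (by positivity)
      rw [le_div_iff₀ hbi] at h1
      linarith)
    (by
      intro c hc
      apply cell_bound L c hL hc
      · intro i _; exact hb i
      · intro i hi
        rw [Finset.mem_filter] at hi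
        have hbi := hb i
        have h1 : 1 / b i < (c : ℝ) + 1 := by
          rw [← hi.2]
          exact Nat.lt_floor_add_one _
        rw [div_lt_iff₀ hbi] at h1
        linarith)
    (3 * L)
  rw [hgD] at hW1 hW2
  have hM1 : Pt S' b ((V + 15) / 16) := by
    have := hM S' (fun i => 4 * b i) V (fun i _ => by have := hb i; positivity) hV1
    have h2 : (fun i => 4 * b i / 4) = b := by funext i; ring
    rw [h2] at this
    exact this
  refine ⟨(V + 15) / 16 + W, ?_, ?_⟩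
  · rw [← hS, hSU]
    exact hU _ _ _ _ _ hdis hM1 hW1
  · rw [← hS, hSU, Finset.sum_union hdis]
    have h1 : (((V + 15) / 16 : ℕ) : ℝ) ≤ ((V : ℝ) + 15) / 16 := by
      have := @Nat.cast_div_le ℝ _ _ _ (V + 15) 16
      push_cast at this
      exact this
    have h2 : ∑ i ∈ S', (4 * b i) ^ 2 = 16 * ∑ i ∈ S', b i ^ 2 := by
      rw [Finset.mul_sum]
      apply Finset.sum_congr rfl
      intro i _; ring
    rw [h2] at hV2
    push_cast at hW2 ⊢
    nlinarith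

theorem exists_PP (L : ℕ) (hL : 4 ≤ L)
    (hU : ∀ (T1 T2 : Finset (Fin n)) (a : Fin n → ℝ) (V1 V2 : ℕ), Disjoint T1 T2 →
      Pt T1 a V1 → Pt T2 a V2 → Pt (T1 ∪ T2) a (V1 + V2))
    (hM : ∀ (T : Finset (Fin n)) (a : Fin n → ℝ) (V : ℕ), (∀ i ∈ T, 0 ≤ a i) → Pt T a V →
      Pt T (fun i => a i / 4) ((V + 15) / 16))
    (hN : ∀ c : ℕ, 4 ≤ c → ∀ (T : Finset (Fin n)) (a : Fin n → ℝ),
      (∀ i ∈ T, 0 ≤ a i ∧ a i ≤ 1 / (c : ℝ)) → Pt T a ((T.card + (c * c - 1)) / (c * c)))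
    (k : ℕ) : ∀ (b : Fin n → ℝ), (∀ i, 0 < b i) → (∀ i, 1 / (L : ℝ) < 4 ^ k * b i) →
      ∃ V, PP Pt L b V := by
  induction k with
  | zero =>
    intro b hb h
    refine ⟨0, ?_⟩
    have h0 : (univ.filter fun i => b i ≤ 1 / (L : ℝ)) = ∅ := by
      apply Finset.filter_false_of_mem
      intro i _
      have := h i
      rw [pow_zero, one_mul] at this
      exact not_le.mpr this
    unfold PP
    rw [h0]
    refine ⟨?_, ?_⟩
    · have := hN 4 le_rfl ∅ b (by simp)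
      simpa using this
    · simp; positivity
  | succ k ih =>
    intro b hb h
    obtain ⟨V, hV⟩ := ih (fun i => 4 * b i) (fun i => by have := hb i; positivity) (by
      intro i
      have := h i
      calc 1 / (L : ℝ) < 4 ^ (k + 1) * b i := this
        _ = 4 ^ k * (4 * b i) := by ring)
    exact step Pt L hL hU hM hN b hb V hV

theorem pack (Gd : Finset (Fin n) → (Fin n → ℝ) → Prop) (L : ℕ) (hL : 4 ≤ L)
    (hU : ∀ (T1 T2 : Finset (Fin n)) (a : Fin n → ℝ) (V1 V2 : ℕ), Disjoint T1 T2 →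
      Pt T1 a V1 → Pt T2 a V2 → Pt (T1 ∪ T2) a (V1 + V2))
    (hM : ∀ (T : Finset (Fin n)) (a : Fin n → ℝ) (V : ℕ), (∀ i ∈ T, 0 ≤ a i) → Pt T a V →
      Pt T (fun i => a i / 4) ((V + 15) / 16))
    (hN : ∀ c : ℕ, 4 ≤ c → ∀ (T : Finset (Fin n)) (a : Fin n → ℝ),
      (∀ i ∈ T, 0 ≤ a i ∧ a i ≤ 1 / (c : ℝ)) → Pt T a ((T.card + (c * c - 1)) / (c * c)))
    (hG : ∀ (T : Finset (Fin n)) (a a' : Fin n → ℝ), (∀ i ∈ T, a i ≤ a' i) → Gd T a' → Gd T a)
    (hF : ∀ (T : Finset (Fin n)) (a : Fin n → ℝ) (t V : ℕ), (∀ i ∈ T, 0 ≤ a i) → V ≤ 16 ^ t →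
      Pt T a V → Gd T fun i => a i / 4 ^ t)
    (ε : ℝ) (hε : 0 < ε) (t : ℕ)
    (h1 : (1 + 1 / (L : ℝ)) ^ 2 * (1 - ε / 2) + (4 * L + 2) / 16 ^ t ≤ 1)
    (a : Fin n → ℝ) (ha : ∀ i, 0 ≤ a i ∧ a i ≤ 1 / (4 ^ t * (L : ℝ)))
    (hsum : ∑ i, a i ^ 2 ≤ 1 - ε) : Gd univ a := by
  have hLr : (4 : ℝ) ≤ L := by exact_mod_cast hL
  have hL0 : (0 : ℝ) < L := by linarith
  set δ : ℝ := 1 / (4 ^ t * (L : ℝ)) with hδ
  have hδ0 : 0 < δ := by positivity
  have hδ1 : δ ≤ 1 := by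
    rw [hδ, div_le_one (by positivity)]
    have : (1 : ℝ) ≤ 4 ^ t := one_le_pow₀ (by norm_num)
    nlinarith
  set η : ℝ := min δ (ε / (2 * (n + 1))) with hη
  have hn1 : (0 : ℝ) < 2 * ((n : ℝ) + 1) := by positivity
  have hη0 : 0 < η := lt_min hδ0 (by positivity)
  have hη1 : η ≤ δ := min_le_left _ _
  have hη2 : η ≤ ε / (2 * (n + 1)) := min_le_right _ _
  set a' : Fin n → ℝ := fun i => max (a i) η with ha'
  have ha'0 : ∀ i, η ≤ a' i := fun i => le_max_right _ _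
  have ha'1 : ∀ i, a' i ≤ δ := fun i => max_le (ha i).2 hη1
  have ha'2 : ∀ i, a' i ^ 2 ≤ a i ^ 2 + η ^ 2 := by
    intro i
    rcases max_cases (a i) η with ⟨h, _⟩ | ⟨h, _⟩
    · simp only [ha', h]; nlinarith [sq_nonneg η]
    · simp only [ha', h]; nlinarith [sq_nonneg (a i)]
  have hs' : ∑ i, a' i ^ 2 ≤ 1 - ε / 2 := by
    have h2 : ∑ i, a' i ^ 2 ≤ ∑ i, (a i ^ 2 + η ^ 2) := Finset.sum_le_sum fun i _ => ha'2 i
    rw [Finset.sum_add_distrib, Finset.sum_const, Finset.card_univ, Fintype.card_fin,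
      nsmul_eq_mul] at h2
    have h3 : η ^ 2 ≤ η := by nlinarith
    have h4 : (n : ℝ) * η ^ 2 ≤ ε / 2 := by
      have h5 : (n : ℝ) * η ≤ n * (ε / (2 * (n + 1))) := by gcongr
      have h6 : (n : ℝ) * (ε / (2 * (n + 1))) ≤ ε / 2 := by
        rw [← mul_div_assoc, div_le_div_iff₀ hn1 (by norm_num)]
        nlinarith
      have h7 : (n : ℝ) * η ^ 2 ≤ n * η := by gcongr
      linarith
    linarith
  set b : Fin n → ℝ := fun i => 4 ^ t * a' i with hbdef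
  have hb0 : ∀ i, 0 < b i := fun i => by
    have := ha'0 i
    have : 0 < a' i := lt_of_lt_of_le hη0 this
    positivity
  obtain ⟨k, hk⟩ : ∃ k : ℕ, 1 / (L : ℝ) / η < 4 ^ k :=
    pow_unbounded_of_one_lt _ (by norm_num)
  have hk' : ∀ i, 1 / (L : ℝ) < 4 ^ k * b i := by
    intro i
    rw [div_lt_iff₀ hη0] at hk
    have h2 : η ≤ b i := by
      have h3 : (1 : ℝ) ≤ 4 ^ t := one_le_pow₀ (by norm_num)
      calc η = 1 * η := by ring
        _ ≤ 4 ^ t * a' i := by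
          apply mul_le_mul h3 (ha'0 i) hη0.le (by positivity)
    calc 1 / (L : ℝ) < 4 ^ k * η := hk
      _ ≤ 4 ^ k * b i := by gcongr
  obtain ⟨V, hV1, hV2⟩ := exists_PP Pt L hL hU hM hN k b hb0 hk'
  have huniv : (univ.filter fun i => b i ≤ 1 / (L : ℝ)) = univ := by
    apply Finset.filter_true_of_mem
    intro i _
    have h2 := ha'1 i
    calc b i = 4 ^ t * a' i := rfl
      _ ≤ 4 ^ t * δ := by gcongr
      _ = 1 / (L : ℝ) := by rw [hδ]; field_simp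
  rw [huniv] at hV1 hV2
  have hsb : ∑ i, b i ^ 2 = 16 ^ t * ∑ i, a' i ^ 2 := by
    rw [Finset.mul_sum]
    apply Finset.sum_congr rfl
    intro i _
    have : (16 : ℝ) ^ t = 4 ^ t * 4 ^ t := by rw [← mul_pow]; norm_num
    rw [this]; simp only [hbdef]; ring
  have h16 : (0 : ℝ) < 16 ^ t := by positivity
  have hVr : (V : ℝ) ≤ 16 ^ t := by
    rw [hsb] at hV2
    have hA : (0 : ℝ) ≤ (1 + 1 / (L : ℝ)) ^ 2 := by positivity
    have h2 : (1 + 1 / (L : ℝ)) ^ 2 * (16 ^ t * ∑ i, a' i ^ 2) ≤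
        16 ^ t * ((1 + 1 / (L : ℝ)) ^ 2 * (1 - ε / 2)) := by
      calc (1 + 1 / (L : ℝ)) ^ 2 * (16 ^ t * ∑ i, a' i ^ 2)
          ≤ (1 + 1 / (L : ℝ)) ^ 2 * (16 ^ t * (1 - ε / 2)) := by gcongr
        _ = _ := by ring
    have h3 : (16 : ℝ) ^ t * ((1 + 1 / (L : ℝ)) ^ 2 * (1 - ε / 2) + (4 * L + 2) / 16 ^ t) ≤
        16 ^ t * 1 := by gcongr
    have h4 : (16 : ℝ) ^ t * ((4 * L + 2) / 16 ^ t) = 4 * L + 2 := by field_simp
    rw [mul_add, h4] at h3
    linarith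
  have hVn : V ≤ 16 ^ t := by exact_mod_cast hVr
  have hfin := hF univ b t V (fun i _ => (hb0 i).le) hVn hV1
  have h5 : (fun i => b i / 4 ^ t) = a' := by
    funext i
    simp only [hbdef]
    field_simp
  rw [h5] at hfin
  exact hG univ a a' (fun i _ => le_max_left _ _) hfin

theorem params (ε : ℝ) (hε : 0 < ε) (hε1 : ε ≤ 1) : ∃ (L t : ℕ), 4 ≤ L ∧
    (1 + 1 / (L : ℝ)) ^ 2 * (1 - ε / 2) + (4 * L + 2) / 16 ^ t ≤ 1 := by
  obtain ⟨L, hL⟩ := exists_nat_ge (12 / ε)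
  have h12 : (12 : ℝ) ≤ 12 / ε := by
    rw [le_div_iff₀ hε]; linarith
  have hL12 : (12 : ℝ) ≤ L := le_trans h12 hL
  have hL0 : (0 : ℝ) < L := by linarith
  have hLn : 4 ≤ L := by
    have : (4 : ℝ) ≤ L := by linarith
    exact_mod_cast this
  obtain ⟨t, ht⟩ : ∃ t : ℕ, (4 * L + 2) / (ε / 4) < (16 : ℝ) ^ t :=
    pow_unbounded_of_one_lt _ (by norm_num)
  refine ⟨L, t, hLn, ?_⟩
  have h16 : (0 : ℝ) < 16 ^ t := by positivity
  have h1 : (4 * (L : ℝ) + 2) / 16 ^ t ≤ ε / 4 := by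
    rw [div_le_iff₀ h16]
    rw [div_lt_iff₀ (by positivity)] at ht
    linarith
  have h2 : 1 / (L : ℝ) ≤ ε / 12 := by
    rw [div_le_iff₀ hε] at hL
    rw [div_le_div_iff₀ hL0 (by norm_num)]
    linarith
  have h3 : 0 < 1 / (L : ℝ) := by positivity
  have h4 : 1 / (L : ℝ) ≤ 1 := by rw [div_le_one hL0]; linarith
  have h5 : (1 + 1 / (L : ℝ)) ^ 2 ≤ 1 + ε / 4 := by nlinarith
  have h6 : (1 + 1 / (L : ℝ)) ^ 2 * (1 - ε / 2) ≤ (1 + ε / 4) * (1 - ε / 2) := by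
    apply mul_le_mul_of_nonneg_right h5; linarith
  nlinarith

end Pool.Agent.H713R3.PK.Acc
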