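import Mathlib
import Pool.Agent.H713R3.PK.Stmts
import Pool.Agent.H713R3.PK.AccBase

set_option autoImplicit false

/-!
# Project PACK: explicit constants
-/

namespace Pool.Agent.H713R3.PK

theorem params_explicit (ε : ℝ) (hε : 0 < ε) (hε1 : ε ≤ 1) : ∃ (L t : ℕ), 4 ≤ L ∧
    (1 + 1 / (L : ℝ)) ^ 2 * (1 - ε / 2) + (4 * L + 2) / 16 ^ t ≤ 1 ∧
    ε ^ 2 / 1000 ≤ 1 / (4 ^ t * (L : ℝ)) := by
  obtain ⟨L, hLd⟩ : ∃ L : ℕ, L = ⌈12 / ε⌉₊ := ⟨_, rfl⟩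
  have hL : 12 / ε ≤ L := by rw [hLd]; exact Nat.le_ceil _
  have hLu : (L : ℝ) ≤ 13 / ε := by
    have h1 : (L : ℝ) < 12 / ε + 1 := by
      rw [hLd]
      exact Nat.ceil_lt_add_one (by positivity)
    have h2 : 1 ≤ 1 / ε := by
      rw [le_div_iff₀ hε]
      linarith
    have h3 : 13 / ε = 12 / ε + 1 / ε := by ring
    linarith
  have h12 : (12 : ℝ) ≤ 12 / ε := by
    rw [le_div_iff₀ hε]; linarith
  have hL12 : (12 : ℝ) ≤ L := le_trans h12 hL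
  have hL0 : (0 : ℝ) < L := by linarith
  have hLn : 4 ≤ L := by
    have : (4 : ℝ) ≤ L := by linarith
    exact_mod_cast this
  have hex : ∃ t : ℕ, (4 * L + 2) / (ε / 4) ≤ (16 : ℝ) ^ t := by
    obtain ⟨t, ht⟩ := pow_unbounded_of_one_lt ((4 * L + 2) / (ε / 4)) (show (1 : ℝ) < 16 by norm_num)
    exact ⟨t, ht.le⟩
  classical
  obtain ⟨t, htd⟩ : ∃ t, t = Nat.find hex := ⟨_, rfl⟩
  have ht : (4 * L + 2) / (ε / 4) ≤ (16 : ℝ) ^ t := by rw [htd]; exact Nat.find_spec hex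
  have hbig : (1 : ℝ) < (4 * L + 2) / (ε / 4) := by
    rw [lt_div_iff₀ (by positivity)]
    linarith
  have ht0 : t ≠ 0 := by
    rintro rfl
    rw [pow_zero] at ht
    linarith
  obtain ⟨u, rfl⟩ := Nat.exists_eq_succ_of_ne_zero ht0
  have hu : (16 : ℝ) ^ u < (4 * L + 2) / (ε / 4) := by
    have h1 := Nat.find_min hex (m := u) (by omega)
    exact not_le.1 h1
  refine ⟨L, u + 1, hLn, ?_, ?_⟩
  · have h16 : (0 : ℝ) < 16 ^ (u + 1) := by positivity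
    have h1 : (4 * (L : ℝ) + 2) / 16 ^ (u + 1) ≤ ε / 4 := by
      rw [div_le_iff₀ h16]
      rw [div_le_iff₀ (by positivity)] at ht
      have ht' : 4 * (L : ℝ) + 2 ≤ 16 ^ (u + 1) * (ε / 4) := ht
      exact ht'.trans (le_of_eq (mul_comm _ _))
    have h2 : 1 / (L : ℝ) ≤ ε / 12 := by
      rw [div_le_iff₀ hε] at hL
      rw [div_le_div_iff₀ hL0 (by norm_num)]
      linarith
    have h3 : 0 < 1 / (L : ℝ) := by positivity
    have h4 : 1 / (L : ℝ) ≤ 1 := by rw [div_le_one hL0]; linarith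
    have h5 : (1 + 1 / (L : ℝ)) ^ 2 ≤ 1 + ε / 4 := by nlinarith
    have h6 : (1 + 1 / (L : ℝ)) ^ 2 * (1 - ε / 2) ≤ (1 + ε / 4) * (1 - ε / 2) := by
      apply mul_le_mul_of_nonneg_right h5; linarith
    nlinarith
  · have h1 : (4 * (L : ℝ) + 2) * ε ≤ 54 := by
      rw [le_div_iff₀ hε] at hLu
      nlinarith
    have h2 : (16 : ℝ) ^ u * ε ^ 2 < 216 := by
      rw [lt_div_iff₀ (by positivity)] at hu
      nlinarith
    have h3 : ((4 : ℝ) ^ u * ε) ^ 2 < 15 ^ 2 := by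
      have : ((4 : ℝ) ^ u * ε) ^ 2 = 16 ^ u * ε ^ 2 := by
        rw [mul_pow, ← pow_mul, mul_comm u 2, pow_mul]
        norm_num
      rw [this]
      linarith
    have h4 : (4 : ℝ) ^ u * ε < 15 := lt_of_pow_lt_pow_left₀ 2 (by norm_num) h3
    have h5 : (L : ℝ) * ε ≤ 13 := by
      rw [le_div_iff₀ hε] at hLu
      exact hLu
    have h6 : 0 < (4 : ℝ) ^ u := by positivity
    rw [div_le_div_iff₀ (by norm_num) (by positivity), one_mul, pow_succ]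
    have h7 : ((4 : ℝ) ^ u * ε) * (L * ε) ≤ 15 * 13 :=
      mul_le_mul h4.le h5 (by positivity) (by norm_num)
    calc ε ^ 2 * (4 ^ u * 4 * (L : ℝ)) = 4 * (((4 : ℝ) ^ u * ε) * (L * ε)) := by ring
      _ ≤ 4 * (15 * 13) := by linarith
      _ ≤ 1000 := by norm_num

/-- The packing theorem with explicit constants. -/
theorem pack_explicit {K : Type} [Field K] [CharZero K]
    (h : PartUnion K ∧ PartMerge K ∧ PartUniform K ∧ GoodMono K ∧ PartFinal K) {ε : ℝ}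
    (hε : 0 < ε) (hε1 : ε ≤ 1) {n : ℕ} {a : Fin n → ℝ}
    (ha : ∀ i, 0 ≤ a i ∧ a i ≤ ε ^ 2 / 1000) (hsum : ∑ i, a i ^ 2 ≤ 1 - ε) :
    GoodOn K Finset.univ a := by
  obtain ⟨hU, hM, hN, hG, hF⟩ := h
  obtain ⟨L, t, hL, h1, h2⟩ := params_explicit ε hε hε1
  exact Acc.pack (fun T a V => Part K T a V) (fun T a => GoodOn K T a) L hL (hU n) (hM n)
    (fun c hc => hN n c hc) (hG n) (hF n) ε hε t h1 a
    (fun i => ⟨(ha i).1, (ha i).2.trans h2⟩) hsum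

end Pool.Agent.H713R3.PK
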