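import Pool.Agent.H713R3.PK.Stmts

set_option autoImplicit false

/-! # Project PACK, task GEN: passage to very general points -/

namespace Pool.Agent.H713R3.PK

open Polynomial Pool.Agent.H932R2 Pool.Agent.H932R3

theorem noForm_of_NP {K : Type} [Field K] {n : ℕ} {P : Fin n → Fin 2 → K} {w : Fin n → ℕ} {d : ℕ}
    (h : NP K Finset.univ P w d) : NoForm (ptJ P w) d := by
  intro F hF hF'
  have hF1 : F.IsHomogeneous d := (MvPolynomial.mem_homogeneousSubmodule d F).1 hF
  apply deh_eq_zero hF1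
  apply h _ (deh_mem_mspan hF1)
  intro i _
  unfold ptJ vIdeal at hF'
  exact (Submodule.mem_iInf _).1 hF' i

theorem taskGen : TaskGen := by
  classical
  intro K _ _ n
  obtain ⟨e, he⟩ := exists_surjective_nat ((Fin n → ℕ) × ℕ)
  have h1 : ∀ j : ℕ, ∃ f : MvPolynomial (Fin n × Fin 2) K, f ≠ 0 ∧ ∀ p : Fin n → Fin 2 → K,
      MvPolynomial.eval (fun q : Fin n × Fin 2 => p q.1 q.2) f ≠ 0 →
      (∃ P : Fin n → Fin 2 → K, NP K Finset.univ P (e j).1 (e j).2) →
      NoForm (ptJ p (e j).1) (e j).2 := by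
    intro j
    by_cases h : ∃ P : Fin n → Fin 2 → K, NP K Finset.univ P (e j).1 (e j).2
    · obtain ⟨P, hP⟩ := h
      obtain ⟨F, hF, hF'⟩ := points_open (e j).1 P (noForm_of_NP hP)
      exact ⟨F, hF, fun p hp _ => hF' p hp⟩
    · exact ⟨1, one_ne_zero, fun p _ h' => absurd h' h⟩
  choose f hf hf' using h1
  refine ⟨f, hf, fun p hp a ha w d hd => ?_⟩
  obtain ⟨j, hj⟩ := he (w, d)
  have h2 := hf' j p (hp j)
  rw [hj] at h2
  exact h2 (ha w d hd)

end Pool.Agent.H713R3.PK
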