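import Pool.Agent.H713R3.PK.Stmts

set_option autoImplicit false

/-!
# Project PACK: the rules for cells
-/

namespace Pool.Agent.H713R3.PK

open Polynomial Pool.Agent.H932R2 Pool.Agent.H932R3

section Single

variable {K : Type} [Field K]

theorem part_sh_smul (c a : K) (γ : K[X]) (f : K[X][X]) : sh c γ (a • f) = a • sh c γ f := by
  have h1 : a • f = C (C a) * f := by
    rw [Algebra.smul_def]
    rfl
  have h2 : a • sh c γ f = C (C a) * sh c γ f := by
    rw [Algebra.smul_def]
    rfl
  rw [h1, h2, map_mul, sh_C, C_comp]

/-- A shift does not increase the total degree. -/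
theorem part_sh_deg (c b : K) (d : ℕ) (f : K[X][X]) (hf : f ∈ mspan K (Tset d)) :
    ∀ i l, d < i + l → ((sh c (C b) f).coeff l).coeff i = 0 := by
  unfold mspan at hf
  induction hf using Submodule.span_induction with
  | mem x hx =>
    obtain ⟨⟨p, q⟩, hpq, rfl⟩ := hx
    intro i l hil
    have hpq' : p + q ≤ d := hpq
    unfold mon
    rw [map_mul, sh_C, map_pow, sh_X, coeff_C_mul, C_comp, coeff_X_add_C_pow]
    have e1 : ((X ^ (p, q).1 : K[X]).comp (X + C c)) = (X + C c) ^ p := by simp
    rw [e1]
    by_cases hl : l ≤ q
    · apply coeff_eq_zero_of_natDegree_lt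
      have h1 : ((X + C c) ^ p : K[X]).natDegree ≤ p := by
        refine le_trans natDegree_pow_le ?_
        rw [natDegree_X_add_C, mul_one]
      have h2 : (C b ^ ((p, q).2 - l) * ((((p, q).2.choose l : ℕ) : K[X]))).natDegree = 0 := by
        rw [← C_pow, ← C_eq_natCast, ← C_mul, natDegree_C]
      refine lt_of_le_of_lt natDegree_mul_le ?_
      rw [h2]
      omega
    · have h3 : (p, q).2.choose l = 0 := Nat.choose_eq_zero_of_lt (not_le.mp hl)
      rw [h3, Nat.cast_zero, mul_zero, mul_zero, coeff_zero]
  | zero => intro i l _; simp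
  | add x y _ _ hx hy =>
    intro i l hil
    rw [map_add, coeff_add, coeff_add, hx i l hil, hy i l hil, add_zero]
  | smul a x _ hx =>
    intro i l hil
    rw [part_sh_smul, coeff_smul, coeff_smul, hx i l hil, smul_zero]

end Single

theorem taskSingle : TaskSingle := by
  intro K _ n T i hi P w d hd f hf hmul
  have h1 := hmul i hi
  rw [mem_cIdeal_iff] at h1
  have h2 : sh (P i 0) (C (P i 1)) f = 0 := by
    ext l j
    rw [coeff_zero, coeff_zero]
    by_cases hjl : d < j + l
    · exact part_sh_deg _ _ d f hf j l hjl
    · exact h1 l (by omega) j (by omega)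
  have h3 := sh_sh (P i 0) (C (P i 1)) f
  rw [h2, map_zero] at h3
  exact h3.symm

section Rules

variable {K : Type} [Field K]

theorem goodOn_empty {n : ℕ} (a : Fin n → ℝ) : GoodOn K (∅ : Finset (Fin n)) a := by
  intro w d hd
  rw [Finset.sum_empty] at hd
  exact absurd hd (not_lt.mpr (Nat.cast_nonneg d))

theorem goodOn_mono {n : ℕ} (T : Finset (Fin n)) (a a' : Fin n → ℝ) (h : ∀ i ∈ T, a i ≤ a' i)
    (hg : GoodOn K T a') : GoodOn K T a := by
  intro w d hd
  refine hg w d (lt_of_lt_of_le hd (Finset.sum_le_sum fun i hi => ?_))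
  exact mul_le_mul_of_nonneg_right (h i hi) (Nat.cast_nonneg _)

theorem goodOn_le_one (hS : TaskSingle) {n : ℕ} (T : Finset (Fin n)) (a : Fin n → ℝ)
    (hT : T.card ≤ 1) (ha : ∀ i ∈ T, a i ≤ 1) : GoodOn K T a := by
  rcases T.eq_empty_or_nonempty with rfl | ⟨i, hi⟩
  · exact goodOn_empty a
  · intro w d hd
    rw [Finset.sum_eq_single_of_mem i hi
      (fun j hj hne => absurd (Finset.card_le_one.mp hT j hj i hi) hne)] at hd
    have h1 : (d : ℝ) < w i := by
      refine lt_of_lt_of_le hd ?_
      have := mul_le_mul_of_nonneg_right (ha i hi) (Nat.cast_nonneg (α := ℝ) (w i))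
      rwa [one_mul] at this
    have h2 : d < w i := by exact_mod_cast h1
    exact ⟨fun _ _ => 0, hS K n T i hi _ w d h2⟩

theorem partUnion : PartUnion K := by
  intro n T1 T2 a V1 V2 hdis ⟨f1, h1, g1⟩ ⟨f2, h2, g2⟩
  classical
  have hn1 : ∀ i ∈ T2, i ∉ T1 := fun i hi hi' => (Finset.disjoint_left.mp hdis) hi' hi
  refine ⟨fun i => if i ∈ T1 then f1 i else V1 + f2 i, ?_, ?_⟩
  · intro i hi
    by_cases hi1 : i ∈ T1
    · simp only [if_pos hi1]
      have := h1 i hi1
      omega
    · simp only [if_neg hi1]
      have hi2 : i ∈ T2 := by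
        rcases Finset.mem_union.mp hi with h | h
        · exact absurd h hi1
        · exact h
      have := h2 i hi2
      omega
  · intro v hv
    by_cases hv1 : v < V1
    · have e : (T1 ∪ T2).filter (fun i => (if i ∈ T1 then f1 i else V1 + f2 i) = v) =
          T1.filter (fun i => f1 i = v) := by
        ext i
        simp only [Finset.mem_filter, Finset.mem_union]
        constructor
        · rintro ⟨hi, hiv⟩
          by_cases hi1 : i ∈ T1
          · rw [if_pos hi1] at hiv
            exact ⟨hi1, hiv⟩
          · rw [if_neg hi1] at hiv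
            omega
        · rintro ⟨hi1, hiv⟩
          rw [if_pos hi1]
          exact ⟨Or.inl hi1, hiv⟩
      rw [e]
      exact g1 v hv1
    · have e : (T1 ∪ T2).filter (fun i => (if i ∈ T1 then f1 i else V1 + f2 i) = v) =
          T2.filter (fun i => f2 i = v - V1) := by
        ext i
        simp only [Finset.mem_filter, Finset.mem_union]
        constructor
        · rintro ⟨hi, hiv⟩
          by_cases hi1 : i ∈ T1
          · rw [if_pos hi1] at hiv
            have := h1 i hi1
            omega
          · rw [if_neg hi1] at hiv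
            refine ⟨?_, by omega⟩
            rcases hi with h | h
            · exact absurd h hi1
            · exact h
        · rintro ⟨hi2, hiv⟩
          rw [if_neg (hn1 i hi2)]
          exact ⟨Or.inr hi2, by omega⟩
      rw [e]
      exact g2 (v - V1) (by omega)

theorem partMerge (hC : TaskCells) [CharZero K] : PartMerge K := by
  intro n T a V ha ⟨f, h1, g1⟩
  refine ⟨fun i => f i / 16, ?_, ?_⟩
  · intro i hi
    have := h1 i hi
    show f i / 16 < (V + 15) / 16
    omega
  · intro v _
    have h2 := hC K n 4 le_rfl (T.filter (fun i => f i / 16 = v)) (fun i => f i % 16) a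
      (fun i hi => ha i (Finset.mem_filter.mp hi).1)
      (fun i _ => Nat.mod_lt _ (by norm_num))
      (fun u hu => ?_)
    · have h3 : (fun i => a i / ((4 : ℕ) : ℝ)) = fun i => a i / 4 := by
        funext i
        norm_num
      rwa [h3] at h2
    · have hu' : u < 16 := by omega
      have e : (T.filter (fun i => f i / 16 = v)).filter (fun i => f i % 16 = u) =
          T.filter (fun i => f i = 16 * v + u) := by
        ext i
        simp only [Finset.mem_filter]
        constructor
        · rintro ⟨⟨hi, h4⟩, h5⟩
          exact ⟨hi, by omega⟩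
        · rintro ⟨hi, h4⟩
          exact ⟨⟨hi, by omega⟩, by omega⟩
      rw [e]
      by_cases hV : 16 * v + u < V
      · exact g1 _ hV
      · have e2 : T.filter (fun i => f i = 16 * v + u) = ∅ := by
          rw [Finset.filter_eq_empty_iff]
          intro i hi h4
          have := h1 i hi
          omega
        rw [e2]
        exact goodOn_empty a

theorem partUniform (hC : TaskCells) (hS : TaskSingle) [CharZero K] : PartUniform K := by
  intro n c hc T a ha
  classical
  have hc0 : 0 < c * c := Nat.mul_pos (by omega) (by omega)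
  have hcR : (0 : ℝ) < c := by
    have : 0 < c := by omega
    exact_mod_cast this
  let idx : Fin n → ℕ := fun i => if h : i ∈ T then (T.equivFin ⟨i, h⟩ : ℕ) else 0
  have hidx : ∀ i (h : i ∈ T), idx i = (T.equivFin ⟨i, h⟩ : ℕ) := fun i h => dif_pos h
  have hlt : ∀ i ∈ T, idx i < T.card := by
    intro i hi
    rw [hidx i hi]
    exact (T.equivFin ⟨i, hi⟩).2
  have hinj : ∀ i ∈ T, ∀ j ∈ T, idx i = idx j → i = j := by
    intro i hi j hj hij
    rw [hidx i hi, hidx j hj] at hij
    have := T.equivFin.injective (Fin.ext hij)
    exact congrArg Subtype.val this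
  refine ⟨fun i => idx i / (c * c), ?_, ?_⟩
  · intro i hi
    have h1 := hlt i hi
    show idx i / (c * c) < (T.card + (c * c - 1)) / (c * c)
    have h2 : (idx i + c * c) / (c * c) ≤ (T.card + (c * c - 1)) / (c * c) :=
      Nat.div_le_div_right (by omega)
    rw [Nat.add_div_right _ hc0] at h2
    omega
  · intro v _
    have h2 := hC K n c hc (T.filter (fun i => idx i / (c * c) = v)) (fun i => idx i % (c * c))
      (fun i => c * a i)
      (fun i hi => mul_nonneg hcR.le (ha i (Finset.mem_filter.mp hi).1).1)
      (fun i _ => Nat.mod_lt _ hc0)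
      (fun u _ => ?_)
    · refine goodOn_mono _ _ _ (fun i _ => ?_) h2
      show a i ≤ c * a i / c
      rw [mul_div_cancel_left₀ _ hcR.ne']
    · refine goodOn_le_one hS _ _ ?_ ?_
      · rw [Finset.card_le_one]
        intro i hi j hj
        simp only [Finset.mem_filter] at hi hj
        apply hinj i hi.1.1 j hj.1.1
        rw [← Nat.div_add_mod (idx i) (c * c), ← Nat.div_add_mod (idx j) (c * c), hi.1.2, hi.2,
          hj.1.2, hj.2]
      · intro i hi
        simp only [Finset.mem_filter] at hi
        have h3 := (ha i hi.1.1).2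
        have h4 := mul_le_mul_of_nonneg_left h3 hcR.le
        rwa [mul_one_div_cancel hcR.ne'] at h4

theorem partFinal (hC : TaskCells) [CharZero K] : PartFinal K := by
  intro n T a t
  induction t generalizing a with
  | zero =>
    intro V ha hV ⟨f, h1, g1⟩
    rw [pow_zero] at hV
    have hgood : GoodOn K T a := by
      by_cases hV0 : V = 0
      · have hT : T = ∅ := by
          rw [Finset.eq_empty_iff_forall_notMem]
          intro i hi
          have := h1 i hi
          omega
        rw [hT]
        exact goodOn_empty a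
      · have h2 := g1 0 (by omega)
        have e : T.filter (fun i => f i = 0) = T := by
          rw [Finset.filter_eq_self]
          intro i hi
          have := h1 i hi
          omega
        rwa [e] at h2
    refine goodOn_mono _ _ _ (fun i _ => ?_) hgood
    rw [pow_zero, div_one]
  | succ t ih =>
    intro V ha hV hP
    have h1 := partMerge hC n T a V ha hP
    have h2 : (V + 15) / 16 ≤ 16 ^ t := by
      rw [pow_succ] at hV
      omega
    have h3 := ih (fun i => a i / 4) ((V + 15) / 16)
      (fun i hi => div_nonneg (ha i hi) (by norm_num)) h2 h1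
    refine goodOn_mono _ _ _ (fun i _ => ?_) h3
    rw [pow_succ, div_div, mul_comm]

end Rules

theorem taskPart : TaskPart := by
  intro hC hS K _ _
  exact ⟨partUnion, partMerge hC, partUniform hC hS, fun n T a a' h hg => goodOn_mono T a a' h hg,
    partFinal hC⟩

end Pool.Agent.H713R3.PK
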