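import Pool.Agent.H713R3.PK.Stmts
import Pool.Agent.H713R3.PK.AccBase

set_option autoImplicit false

namespace Pool.Agent.H713R3.PK

theorem taskPack : TaskPack := by
  rintro K _ _ ⟨hU, hM, hN, hG, hF⟩ ε hε
  obtain ⟨L, t, hL, h1⟩ := Acc.params (min ε 1) (lt_min hε one_pos) (min_le_right _ _)
  have hL0 : (0 : ℝ) < L := by
    have : 0 < L := by omega
    exact_mod_cast this
  refine ⟨1 / (4 ^ t * (L : ℝ)), by positivity, ?_⟩
  intro n a ha hsum
  exact Acc.pack (fun T a V => Part K T a V) (fun T a => GoodOn K T a) L hL (hU n) (hM n)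
    (fun c hc => hN n c hc) (hG n) (hF n) (min ε 1) (lt_min hε one_pos) t h1 a ha
    (le_trans hsum (by have := min_le_left ε 1; linarith))

end Pool.Agent.H713R3.PK
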